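import Pool.Agent.MP_8ec908_lc.H18.Final
import Pool.Agent.MP_8ec908_lc.H9.Main
import Pool.Agent.MP_8ec908_lc.H47.M45
import Pool.Agent.MP_8ec908_lc.H78.M6
import Pool.Agent.MP_8ec908_lc.H19.M8

namespace Pool.Agent.Results.MP_8ec908_lc.Positive

open Pool.Agent.MP_8ec908_lc.Defs Pool.Agent.MP_8ec908_lc.H18

theorem result (ν : ℕ → Tm) (hν : ν = num ∨ ν = bnum) :
    (∃ g C, NumerationN ν g C) ∧
    ∀ g C, NumerationN ν g C →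
      ∃ a : Fm, a.Closed ∧ (¬ ∃ p, IsProof (Q ++ [a]) p ∧ Fm.bot ∈ p) ∧
        ∃ k : ℕ, ∃ P : Polynomial ℕ, ∀ n : ℕ,
          ∃ p, IsProof (Q ++ [a]) p ∧ p.head? = some (conN ν C (g a) n) ∧ len p ≤ P.eval n ∧
            ∀ b ∈ p, Cx true k b ∧ b.rank ≤ k :=
  final Pool.Agent.MP_8ec908_lc.H9.m3a Pool.Agent.MP_8ec908_lc.H9.m3b
    Pool.Agent.MP_8ec908_lc.H47.m45 Pool.Agent.MP_8ec908_lc.H78.m6 Pool.Agent.MP_8ec908_lc.H19.m8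
    ν hν

end Pool.Agent.Results.MP_8ec908_lc.Positive
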