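import Pool.Agent.MP_8ec908_lc.H65.Final

namespace Pool.Agent.Results.MP_8ec908_lc.PureArith

open Pool.Agent.MP_8ec908_lc.Defs Pool.Agent.MP_8ec908_lc.H18 Pool.Agent.MP_8ec908_lc.H65

theorem result (ν : ℕ → Tm) (hν : ν = num ∨ ν = bnum) :
    (∃ g C, Numer ν (fun b => b.str.length) g C) ∧
    ∀ l : Fm → ℕ, (∀ b : Fm, {x | b.Free x}.encard + b.rank ≤ l b) → ∀ g C, Numer ν l g C →
      ∀ σ : Fm, ArF σ → σ.Closed → σ.Holds (fun _ => 0) →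
      ∃ a : Fm, ArF a ∧ a.Closed ∧ (¬ ∃ p, IsProof (Q ++ [a]) p ∧ Fm.bot ∈ p) ∧
        (∃ p, IsProof (Q ++ [a]) p ∧ relN σ ∈ p ∧ cutN add ∈ p ∧ cutN mul ∈ p) ∧
        ∃ k : ℕ, ∃ P : Polynomial ℕ, ∀ n : ℕ,
          ∃ p, IsProof (Q ++ [a]) p ∧ p.head? = some (conN ν C (g a) n) ∧ len p ≤ P.eval n ∧
            ∀ b ∈ p, ArF b ∧ Cx true k b ∧ b.rank ≤ k :=
  final ν hν

end Pool.Agent.Results.MP_8ec908_lc.PureArith
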